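import Pool.Agent.Q91.TE.Char
import Pool.Agent.Q91.TE.Mat

set_option autoImplicit false
set_option linter.unusedSectionVars false

universe u

namespace Pool.Agent.Results.MP_54e5d7_al.CharacterTwists

open Pool.Agent.Q91.TE Pool.Agent.W649.ZL

/-- The kernel of right multiplication by the matrix `A` over the complex group ring on row vectors
of length `m` over `ℓ²(G)`: all square-summable `x` with `x A = 0`. -/
def kernel {G : Type u} [Group G] {m l : ℕ} (A : Matrix (Fin m) (Fin l) (G →₀ ℂ)) :
    Set (lp (fun _ : Fin m × G => ℂ) 2) :=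
  {x | ∀ (j : Fin l) (g : G),
    ∑ k : Fin m, ∑ h ∈ (A k j).support, x (k, g * h⁻¹) * A k j h = 0}

open Classical in
/-- The von Neumann dimension of that kernel: the sum over `i` of one minus the square of the
distance from the basis vector at `(i, 1)` to the kernel, that is, the sum of the squared lengths
of the projections of these vectors to the kernel. -/
noncomputable def kerDim {G : Type u} [Group G] {m l : ℕ}
    (A : Matrix (Fin m) (Fin l) (G →₀ ℂ)) : ℝ :=
  ∑ i : Fin m, (1 - Metric.infDist
    (lp.single (E := fun _ : Fin m × G => ℂ) 2 (i, (1 : G)) (1 : ℂ)) (kernel A) ^ 2)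

open Classical in
/-- The twisted matrix: the coefficient of `t` in the entry `A i j` is multiplied by
`χ (x i * t * (y j)⁻¹)`. -/
noncomputable def twist {G : Type u} [Group G] {m l : ℕ} (K : Subgroup G) (χ : K →* ℂˣ)
    (x : Fin m → G) (y : Fin l → G) (A : Matrix (Fin m) (Fin l) (G →₀ ℂ)) :
    Matrix (Fin m) (Fin l) (G →₀ ℂ) :=
  fun i j => Finsupp.onFinset (A i j).support
    (fun t => if h : x i * t * (y j)⁻¹ ∈ K then A i j t * χ ⟨x i * t * (y j)⁻¹, h⟩ else 0) (by
      intro t ht
      rw [Finsupp.mem_support_iff]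
      intro h0
      apply ht
      split_ifs
      · rw [h0, zero_mul]
      · rfl)

theorem kerDim_eq {G : Type u} [Group G] {m l : ℕ} (A : Matrix (Fin m) (Fin l) (G →₀ ℂ)) :
    kerDim A = kerDimM A := by
  unfold kerDim kerDimM
  refine Finset.sum_congr rfl fun i _ => ?_
  congr 3

theorem matM_apply {G : Type u} [Group G] {m l : ℕ} (A : Matrix (Fin m) (Fin l) (G →₀ ℂ))
    (c : Tm A → ℂ) (i : Fin m) (j : Fin l) (t : G) (ht : t ∈ (A i j).support) :
    matM (tel A) (trow A) (tcol A) c i j t = c ⟨i, j, t, ht⟩ := by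
  classical
  unfold matM
  rw [Finsupp.finsetSum_apply, Finset.sum_eq_single (⟨i, j, t, ht⟩ : Tm A)]
  · rw [if_pos ⟨rfl, rfl⟩]
    exact Finsupp.single_eq_same
  · rintro ⟨i', j', t', ht'⟩ _ hne
    by_cases h : trow A ⟨i', j', t', ht'⟩ = i ∧ tcol A ⟨i', j', t', ht'⟩ = j
    · rw [if_pos h]
      obtain ⟨h1, h2⟩ := h
      change i' = i at h1
      change j' = j at h2
      subst h1 h2
      rw [Finsupp.single_apply, if_neg]
      intro h3
      change t' = t at h3
      subst h3
      exact hne rfl
    · rw [if_neg h]; rfl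
  · intro h; exact absurd (Finset.mem_univ _) h

theorem matM_zero {G : Type u} [Group G] {m l : ℕ} (A : Matrix (Fin m) (Fin l) (G →₀ ℂ))
    (c : Tm A → ℂ) (i : Fin m) (j : Fin l) (t : G) (ht : t ∉ (A i j).support) :
    matM (tel A) (trow A) (tcol A) c i j t = 0 := by
  classical
  unfold matM
  rw [Finsupp.finsetSum_apply]
  refine Finset.sum_eq_zero ?_
  rintro ⟨i', j', t', ht'⟩ _
  by_cases h : trow A ⟨i', j', t', ht'⟩ = i ∧ tcol A ⟨i', j', t', ht'⟩ = j
  · rw [if_pos h]
    obtain ⟨h1, h2⟩ := h
    change i' = i at h1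
    change j' = j at h2
    subst h1 h2
    rw [Finsupp.single_apply, if_neg]
    intro h3
    change t' = t at h3
    subst h3
    exact ht ht'
  · rw [if_neg h]; rfl

/-- **Invariance of kernel dimensions under twisting by characters.** Let `G` be any group, `A` a
matrix over its complex group algebra, `K` a subgroup and `x i`, `y j` elements of `G` such that
`x i * t * (y j)⁻¹` is in `K` for all elements `t` in the support of `A i j` (for example `K = G`
and `x i = y j = 1`). Then for every homomorphism `χ` from `K` to the multiplicative group of all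
nonzero complex numbers the kernels of `A` and of the matrix twisted by `χ` on `ℓ²(G)^m` have the
same von Neumann dimension. -/
theorem result {G : Type u} [Group G] (K : Subgroup G) (χ : K →* ℂˣ) {m l : ℕ}
    (A : Matrix (Fin m) (Fin l) (G →₀ ℂ)) (x : Fin m → G) (y : Fin l → G)
    (hK : ∀ i j, ∀ t ∈ (A i j).support, x i * t * (y j)⁻¹ ∈ K) :
    kerDim (twist K χ x y A) = kerDim A := by
  classical
  let χ' : K →* ℂ := (Units.coeHom ℂ).comp χ
  let κ : Tm A → K := fun s => ⟨x s.1 * s.2.2.1 * (y s.2.1)⁻¹, hK _ _ _ s.2.2.2⟩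
  have h1 := twist_char (tel A) (trow A) (tcol A) K x y κ (fun _ => rfl) χ' (tco A)
  have hA : matM (tel A) (trow A) (tcol A) (tco A) = A := by
    funext i j
    ext t
    by_cases ht : t ∈ (A i j).support
    · rw [matM_apply A _ i j t ht]; rfl
    · rw [matM_zero A _ i j t ht, Finsupp.notMem_support_iff.1 ht]
  have hB : matM (tel A) (trow A) (tcol A) (fun s => tco A s * χ' (κ s)) = twist K χ x y A := by
    funext i j
    ext t
    by_cases ht : t ∈ (A i j).support
    · rw [matM_apply A _ i j t ht]
      change A i j t * χ' ⟨x i * t * (y j)⁻¹, _⟩ = if h : x i * t * (y j)⁻¹ ∈ K then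
        A i j t * χ ⟨x i * t * (y j)⁻¹, h⟩ else 0
      rw [dif_pos (hK i j t ht)]
      rfl
    · rw [matM_zero A _ i j t ht]
      change (0 : ℂ) = if h : x i * t * (y j)⁻¹ ∈ K then
        A i j t * χ ⟨x i * t * (y j)⁻¹, h⟩ else 0
      rw [Finsupp.notMem_support_iff.1 ht]
      split_ifs
      · rw [zero_mul]
      · rfl
  rw [kerDim_eq, kerDim_eq, ← hB, h1, hA]

end Pool.Agent.Results.MP_54e5d7_al.CharacterTwists
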