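import Pool.Agent.Q16.TP.Group

/-!
# The Atiyah conjecture: it is enough to bound the denominators over the powers of `G`

For a matrix `A` over a group ring `ℂG` let `kerDim A` be the von Neumann dimension of the kernel of right
multiplication by `A` on row vectors over `ℓ²(G)`. We show that kernel dimensions multiply: for matrices
`A` over `FG` and `B` over `FH` there is a matrix over `F[G × H]` with kernel dimension
`kerDim A * kerDim B`. It follows that a group `G` whose finite subgroups have bounded order, with least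
common multiple `L`, satisfies the Atiyah conjecture (`L * kerDim A ∈ ℤ` for all `A` over `FG`) if for some
`k ≥ 1` all kernel dimensions over `F[G^k]` are in `(N L^k)⁻¹ ℤ` for some positive `N < 2^k`. So the
conjecture (for all groups) is equivalent to this weaker statement; and if `G` violates the conjecture, the
denominators over `G^k` are larger than the predicted ones by a factor of at least `2^k`.
-/

set_option autoImplicit false

namespace Pool.Agent.Results.MP_54e5d7_al.DenominatorsOfPowers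

open Pool.Agent.Q16.TP

/-- The product `G × (G × ⋯ × G)` of `k + 1` copies of `G`. -/
def Pow (G : Type) : ℕ → Type
  | 0 => G
  | k + 1 => G × Pow G k

/-- the group structure of the product -/
@[instance_reducible] def powGroup (G : Type) [Group G] : (k : ℕ) → Group (Pow G k)
  | 0 => inferInstanceAs (Group G)
  | k + 1 =>
    letI := powGroup G k
    inferInstanceAs (Group (G × Pow G k))

instance (G : Type) [Group G] (k : ℕ) : Group (Pow G k) := powGroup G k

/-- All kernel dimensions of matrices over `FG` lie in `D⁻¹ ℤ`. -/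
def DimsIn (G : Type) [Group G] (F : Subfield ℂ) (D : ℕ) : Prop :=
  ∀ (ι κ : Type) [Fintype ι] [Fintype κ] (A : Matrix ι κ (G →₀ ℂ)), (∀ i j g, A i j g ∈ F) →
    ∃ z : ℤ, (D : ℝ) * kerDim A = z

/-- The orders of the finite subgroups of `G` are bounded, and `L` is their least common multiple. -/
def IsLcm (G : Type) [Group G] (L : ℕ) : Prop :=
  (∃ N : ℕ, ∀ H : Subgroup G, Finite H → Nat.card H ≤ N) ∧
  (∀ H : Subgroup G, Finite H → Nat.card H ∣ L) ∧
  ∀ e : ℕ, (∀ H : Subgroup G, Finite H → Nat.card H ∣ e) → L ∣ e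

/-- The Atiyah conjecture for all groups with a bound on the orders of the finite subgroups. -/
def Atiyah : Prop :=
  ∀ (G : Type) [Group G] (F : Subfield ℂ) (L : ℕ), IsLcm G L → DimsIn G F L

theorem IsLcm.pos {G : Type} [Group G] {L : ℕ} (h : IsLcm G L) : 0 < L := by
  obtain ⟨⟨N, hN⟩, -, h3⟩ := h
  have h4 : L ∣ N.factorial := h3 _ fun H hH => by
    have : Finite H := hH
    exact Nat.dvd_factorial Nat.card_pos (hN H hH)
  exact Nat.pos_of_dvd_of_pos h4 (Nat.factorial_pos N)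

/-- the powers of a kernel dimension are kernel dimensions over the powers of the group -/
theorem exists_pow {G : Type} [Group G] {F : Subfield ℂ} {ι κ : Type} [Fintype ι] [Fintype κ]
    (A : Matrix ι κ (G →₀ ℂ)) (hA : ∀ i j g, A i j g ∈ F) (k : ℕ) :
    ∃ (ι' κ' : Type) (_ : Fintype ι') (_ : Fintype κ') (C : Matrix ι' κ' (Pow G k →₀ ℂ)),
      (∀ i j g, C i j g ∈ F) ∧ kerDim C = kerDim A ^ (k + 1) := by
  induction k with
  | zero => exact ⟨ι, κ, inferInstance, inferInstance, A, hA, by rw [zero_add, pow_one]; rfl⟩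
  | succ k ih =>
    obtain ⟨ι', κ', h1, h2, C, hC, hC2⟩ := ih
    refine ⟨ι × ι', (κ × ι') ⊕ (ι × κ'), inferInstance, inferInstance,
      (pm A C : Matrix _ _ (G × Pow G k →₀ ℂ)), pm_mem F hA hC, ?_⟩
    have h3 : kerDim (pm A C) = kerDim A * kerDim C := kerDim_pm A C
    rw [hC2, ← pow_succ'] at h3
    exact h3

/-- kernel dimensions over the group are kernel dimensions over its powers -/
theorem exists_same {G : Type} [Group G] {F : Subfield ℂ} {ι κ : Type} [Fintype ι] [Fintype κ]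
    (A : Matrix ι κ (G →₀ ℂ)) (hA : ∀ i j g, A i j g ∈ F) (k : ℕ) :
    ∃ (ι' κ' : Type) (_ : Fintype ι') (_ : Fintype κ') (C : Matrix ι' κ' (Pow G k →₀ ℂ)),
      (∀ i j g, C i j g ∈ F) ∧ kerDim C = kerDim A := by
  cases k with
  | zero => exact ⟨ι, κ, inferInstance, inferInstance, A, hA, rfl⟩
  | succ k =>
    refine ⟨ι × Unit, (κ × Unit) ⊕ (ι × Empty), inferInstance, inferInstance,
      (pm A (fun _ j => Empty.elim j : Matrix Unit Empty (Pow G k →₀ ℂ)) :
        Matrix _ _ (G × Pow G k →₀ ℂ)), pm_mem F hA (fun _ j => Empty.elim j), ?_⟩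
    have h3 : kerDim (pm A (fun _ j => Empty.elim j : Matrix Unit Empty (Pow G k →₀ ℂ))) =
        kerDim A * kerDim (fun _ j => Empty.elim j : Matrix Unit Empty (Pow G k →₀ ℂ)) :=
      kerDim_pm A _
    rw [kerDim_empty, mul_one] at h3
    exact h3

/-- a rational number all of whose powers have small denominators is an integer -/
theorem int_of_pow {N k : ℕ} (hN0 : 0 < N) (hN : N < 2 ^ (k + 1)) {q : ℚ} {z : ℤ}
    (h : (N : ℚ) * q ^ (k + 1) = z) : ∃ w : ℤ, q = w := by
  have hden : (q.den : ℚ) ≠ 0 := by exact_mod_cast q.den_nz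
  have h1 : (N : ℚ) * (q.num : ℚ) ^ (k + 1) = z * (q.den : ℚ) ^ (k + 1) := by
    have h2 : (q : ℚ) = q.num / q.den := (Rat.num_div_den q).symm
    rw [h2, div_pow] at h
    field_simp at h
    linarith
  have h2 : (N : ℤ) * q.num ^ (k + 1) = z * (q.den : ℤ) ^ (k + 1) := by exact_mod_cast h1
  have h3 : (q.den : ℤ) ^ (k + 1) ∣ (N : ℤ) * q.num ^ (k + 1) := ⟨z, by rw [h2]; ring⟩
  have h4 : IsCoprime ((q.den : ℤ) ^ (k + 1)) (q.num ^ (k + 1)) := by
    have h5 : IsCoprime q.num (q.den : ℤ) := by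
      rw [Int.isCoprime_iff_gcd_eq_one]
      exact q.reduced
    exact (h5.symm).pow
  have h5 : (q.den : ℤ) ^ (k + 1) ∣ (N : ℤ) := h4.dvd_of_dvd_mul_right h3
  have h6 : q.den ^ (k + 1) ∣ N := by exact_mod_cast h5
  have h7 : q.den ^ (k + 1) < 2 ^ (k + 1) := (Nat.le_of_dvd hN0 h6).trans_lt hN
  have h8 : q.den < 2 := lt_of_pow_lt_pow_left₀ _ (by norm_num) h7
  have h9 : q.den = 1 := by
    have := q.den_pos
    omega
  exact ⟨q.num, (Rat.den_eq_one_iff q).1 h9 |>.symm⟩

theorem criterion {G : Type} [Group G] {F : Subfield ℂ} {k N L : ℕ} (hN0 : 0 < N)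
    (hN : N < 2 ^ (k + 1)) (hL : 0 < L) (h : DimsIn (Pow G k) F (N * L ^ (k + 1))) :
    DimsIn G F L := by
  intro ι κ _ _ A hA
  obtain ⟨ι₁, κ₁, _, _, C₁, hC₁, e₁⟩ := exists_same A hA k
  obtain ⟨ι₂, κ₂, _, _, C₂, hC₂, e₂⟩ := exists_pow A hA k
  obtain ⟨z₁, hz₁⟩ := h ι₁ κ₁ C₁ hC₁
  obtain ⟨z₂, hz₂⟩ := h ι₂ κ₂ C₂ hC₂
  rw [e₁] at hz₁
  rw [e₂] at hz₂
  have hLR : (L : ℝ) ≠ 0 := by exact_mod_cast hL.ne'
  have hNR : (N : ℝ) ≠ 0 := by exact_mod_cast hN0.ne'
  set q : ℚ := z₁ / (N * L ^ k) with hq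
  have h1 : (L : ℝ) * kerDim A = (q : ℝ) := by
    rw [hq]
    push_cast at hz₁ ⊢
    rw [← hz₁]
    field_simp
    ring
  have h2 : (N : ℚ) * q ^ (k + 1) = z₂ := by
    have h3 : (N : ℝ) * (q : ℝ) ^ (k + 1) = z₂ := by
      rw [← h1, ← hz₂]
      push_cast
      ring
    exact_mod_cast h3
  obtain ⟨w, hw⟩ := int_of_pow hN0 hN h2
  exact ⟨w, by rw [h1, hw]; norm_cast⟩

/-- **Denominators of `L²`-Betti numbers over powers of a group.** -/
theorem result :
    (∀ (G H : Type) [Group G] [Group H] (F : Subfield ℂ) (ι κ ι' κ' : Type) [Fintype ι] [Fintype κ]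
      [Fintype ι'] [Fintype κ'] (A : Matrix ι κ (G →₀ ℂ)) (B : Matrix ι' κ' (H →₀ ℂ)),
      (∀ i j g, A i j g ∈ F) → (∀ i j g, B i j g ∈ F) →
      ∃ C : Matrix (ι × ι') ((κ × ι') ⊕ (ι × κ')) (G × H →₀ ℂ), (∀ i j g, C i j g ∈ F) ∧
        kerDim C = kerDim A * kerDim B) ∧
    (∀ (G : Type) [Group G] (F : Subfield ℂ) (k N L : ℕ), 0 < N → N < 2 ^ (k + 1) → 0 < L →
      DimsIn (Pow G k) F (N * L ^ (k + 1)) → DimsIn G F L) ∧
    (Atiyah ↔ ∀ (G : Type) [Group G] (F : Subfield ℂ) (L : ℕ), IsLcm G L →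
      ∃ k N : ℕ, 0 < N ∧ N < 2 ^ (k + 1) ∧ DimsIn (Pow G k) F (N * L ^ (k + 1))) := by
  refine ⟨fun G H _ _ F ι κ ι' κ' _ _ _ _ A B hA hB => ⟨pm A B, pm_mem F hA hB, kerDim_pm A B⟩,
    fun G _ F k N L h1 h2 h3 h4 => criterion h1 h2 h3 h4, fun h G _ F L hL => ?_,
    fun h G _ F L hL => ?_⟩
  · refine ⟨0, 1, one_pos, by norm_num, ?_⟩
    have h1 := h G F L hL
    rw [one_mul, zero_add, pow_one]
    exact h1
  · obtain ⟨k, N, h1, h2, h3⟩ := h G F L hL
    exact criterion h1 h2 hL.pos h3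

end Pool.Agent.Results.MP_54e5d7_al.DenominatorsOfPowers
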