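import Pool.Agent.Q91.TE.Many
import Pool.Agent.Q91.TE.Mat

set_option autoImplicit false
set_option linter.unusedSectionVars false

universe u

namespace Pool.Agent.Results.MP_54e5d7_al.GenericEvaluation

open Pool.Agent.Q91.TE Pool.Agent.W649.ZL

/-- The kernel of right multiplication by the matrix `A` over the complex group ring on row vectors
of length `m` over `ℓ²(G)`: all square-summable `x` with `x A = 0`. -/
def kernel {G : Type u} [Group G] {m l : ℕ} (A : Matrix (Fin m) (Fin l) (G →₀ ℂ)) :
    Set (lp (fun _ : Fin m × G => ℂ) 2) :=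
  {x | ∀ (j : Fin l) (g : G),
    ∑ k : Fin m, ∑ h ∈ (A k j).support, x (k, g * h⁻¹) * A k j h = 0}

open Classical in
/-- The von Neumann dimension of that kernel: the sum over `i` of one minus the square of the
distance from the basis vector at `(i, 1)` to the kernel, that is, the sum of the squared lengths
of the projections of these vectors to the kernel. -/
noncomputable def kerDim {G : Type u} [Group G] {m l : ℕ}
    (A : Matrix (Fin m) (Fin l) (G →₀ ℂ)) : ℝ :=
  ∑ i : Fin m, (1 - Metric.infDist
    (lp.single (E := fun _ : Fin m × G => ℂ) 2 (i, (1 : G)) (1 : ℂ)) (kernel A) ^ 2)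

/-- The product of `G` and the free abelian group `ℤ^r`. -/
abbrev TimesZ (G : Type u) (r : ℕ) : Type u := G × Multiplicative (Fin r → ℤ)

/-- The matrix over `ℂG` obtained from a matrix over `ℂ[G × ℤ^r]` by giving the generators of `ℤ^r`
the values `z s`: the term `c (g, n)` becomes `c z^n g`. -/
noncomputable def specialize {G : Type u} [Group G] {r m l : ℕ} (z : Fin r → ℂˣ)
    (A : Matrix (Fin m) (Fin l) (TimesZ G r →₀ ℂ)) : Matrix (Fin m) (Fin l) (G →₀ ℂ) :=
  fun i j => (A i j).sum fun t c =>
    Finsupp.single t.1 (c * ∏ s, (z s : ℂ) ^ (Multiplicative.toAdd t.2 s))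

theorem kerDim_eq {G : Type u} [Group G] {m l : ℕ} (A : Matrix (Fin m) (Fin l) (G →₀ ℂ)) :
    kerDim A = kerDimM A := by
  unfold kerDim kerDimM
  refine Finset.sum_congr rfl fun i _ => ?_
  congr 3

theorem sum_terms {G : Type u} [Group G] {m l : ℕ} (A : Matrix (Fin m) (Fin l) (G →₀ ℂ))
    {M : Type*} [AddCommMonoid M] (F : G → ℂ → M) (i : Fin m) (j : Fin l) :
    (∑ s : Tm A, if trow A s = i ∧ tcol A s = j then F (tel A s) (tco A s) else 0)
      = (A i j).sum F := by
  classical
  rw [Fintype.sum_sigma, Finset.sum_eq_single i]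
  · rw [Fintype.sum_sigma, Finset.sum_eq_single j]
    · rw [Finsupp.sum, ← Finset.sum_coe_sort (A i j).support]
      refine Finset.sum_congr rfl fun t _ => ?_
      rw [if_pos ⟨rfl, rfl⟩]
      rfl
    · intro j' _ hj'
      refine Finset.sum_eq_zero fun t _ => ?_
      rw [if_neg (fun hh => hj' hh.2)]
    · intro hh; exact absurd (Finset.mem_univ _) hh
  · intro i' _ hi'
    refine Finset.sum_eq_zero fun t _ => ?_
    rw [if_neg (fun hh => hi' hh.1)]
  · intro hh; exact absurd (Finset.mem_univ _) hh

theorem matM_eq {G : Type u} [Group G] {m l : ℕ} (A : Matrix (Fin m) (Fin l) (G →₀ ℂ)) :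
    matM (tel A) (trow A) (tcol A) (tco A) = A := by
  classical
  funext i j
  refine (sum_terms A (fun t c => Finsupp.single t c) i j).trans ?_
  exact Finsupp.sum_single _

theorem matM_spec {G : Type u} [Group G] {r m l : ℕ} (z : Fin r → ℂˣ)
    (A : Matrix (Fin m) (Fin l) (TimesZ G r →₀ ℂ)) :
    matM (fun s => (tel A s).1) (trow A) (tcol A)
      (evR (tco A) (fun s => Multiplicative.toAdd (tel A s).2) (fun s => (z s : ℂ)))
      = specialize z A := by
  classical
  funext i j
  exact sum_terms A (fun t c =>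
    Finsupp.single t.1 (c * ∏ s, (z s : ℂ) ^ (Multiplicative.toAdd t.2 s))) i j

/-- **Kernel dimensions over products with free abelian groups.** Let `G` be any group.

(1) For every matrix `A` over `ℂ[G × ℤ^r]` and all nonzero complex numbers `z 0, …, z (r - 1)` the
kernel dimension of `A` over `G × ℤ^r` is at most that of the specialized matrix `A(z)` over `G`.

(2) For some `z` both are equal, so that the kernel dimension of `A` is the minimum of those of the
matrices `A(z)`.

(3) For `r = 1` they are equal for all but countably many `z`.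

(4) The matrices of size `m × l` over `ℂ[G × ℤ^r]` and those over `ℂG` have the same set of kernel
dimensions. -/
theorem result {G : Type u} [Group G] {m l : ℕ} :
    (∀ (r : ℕ) (A : Matrix (Fin m) (Fin l) (TimesZ G r →₀ ℂ)) (z : Fin r → ℂˣ),
      kerDim A ≤ kerDim (specialize z A)) ∧
    (∀ (r : ℕ) (A : Matrix (Fin m) (Fin l) (TimesZ G r →₀ ℂ)),
      ∃ z : Fin r → ℂˣ, kerDim A = kerDim (specialize z A)) ∧
    (∀ A : Matrix (Fin m) (Fin l) (TimesZ G 1 →₀ ℂ),
      {z : Fin 1 → ℂˣ | kerDim A ≠ kerDim (specialize z A)}.Countable) ∧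
    (∀ r : ℕ, Set.range (kerDim : Matrix (Fin m) (Fin l) (TimesZ G r →₀ ℂ) → ℝ)
      = Set.range (kerDim : Matrix (Fin m) (Fin l) (G →₀ ℂ) → ℝ)) := by
  have key : ∀ (r : ℕ) (A : Matrix (Fin m) (Fin l) (TimesZ G r →₀ ℂ)),
      kerDimM (matM (prR (fun s => (tel A s).1) (fun s => Multiplicative.toAdd (tel A s).2))
        (trow A) (tcol A) (tco A)) = kerDim A := by
    intro r A
    rw [kerDim_eq]
    congr 1
    exact matM_eq A
  have h1 : ∀ (r : ℕ) (A : Matrix (Fin m) (Fin l) (TimesZ G r →₀ ℂ)) (z : Fin r → ℂˣ),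
      kerDim A ≤ kerDim (specialize z A) := by
    intro r A z
    have h := (many r (fun s => (tel A s).1) (fun s => Multiplicative.toAdd (tel A s).2)
      (trow A) (tcol A) (tco A)).1 (fun s => (z s : ℂ)) (fun s => (z s).ne_zero)
    refine ((key r A).symm.le.trans h).trans (le_of_eq ?_)
    rw [matM_spec]
    exact (kerDim_eq _).symm
  have h2 : ∀ (r : ℕ) (A : Matrix (Fin m) (Fin l) (TimesZ G r →₀ ℂ)),
      ∃ z : Fin r → ℂˣ, kerDim A = kerDim (specialize z A) := by
    intro r A
    obtain ⟨c, hc, h⟩ := (many r (fun s => (tel A s).1)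
      (fun s => Multiplicative.toAdd (tel A s).2) (trow A) (tcol A) (tco A)).2
    refine ⟨fun s => Units.mk0 (c s) (hc s), ?_⟩
    refine ((key r A).symm.trans h).trans ?_
    have h' := matM_spec (fun s => Units.mk0 (c s) (hc s)) A
    exact (congrArg kerDimM h').trans (kerDim_eq _).symm
  refine ⟨h1, h2, fun A => ?_, fun r => ?_⟩
  · let h' : Tm A → G := fun s => (tel A s).1
    let e' : Tm A → ℤ := fun s => Multiplicative.toAdd (tel A s).2 0
    obtain ⟨_, S, hS, h3⟩ := one h' e' (trow A) (tcol A) (tco A)
    have h4 : kerDimM (matM (pr h' e') (trow A) (tcol A) (tco A)) = kerDim A := by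
      let ψ : G × Multiplicative ℤ →* TimesZ G 1 :=
        { toFun := fun x => (x.1, Multiplicative.ofAdd fun _ => Multiplicative.toAdd x.2)
          map_one' := rfl
          map_mul' := fun _ _ => rfl }
      have hψ : Function.Injective ψ := by
        intro x y hxy
        obtain ⟨h5, h6⟩ := Prod.mk.inj hxy
        exact Prod.ext h5 (congrFun (Multiplicative.ofAdd.injective h6) 0)
      rw [← inj_hom ψ hψ, ← key 1 A]
      congr 2
      funext s
      refine Prod.ext rfl ?_
      apply Multiplicative.toAdd.injective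
      funext t
      rw [Subsingleton.elim t 0]
      rfl
    have h5 : ∀ z : Fin 1 → ℂˣ, (z 0 : ℂ) ∉ S → kerDim (specialize z A) = kerDim A := by
      intro z hz
      rw [← h4, ← h3 (z 0 : ℂ) (z 0).ne_zero hz, kerDim_eq, ← matM_spec]
      congr 2
      funext s
      unfold evR evC
      rw [Fin.prod_univ_one]
    have hinj : Function.Injective fun z : Fin 1 → ℂˣ => (z 0 : ℂ) := by
      intro z z' hz
      funext s
      rw [Subsingleton.elim s 0]
      exact Units.ext hz
    refine (hS.preimage hinj).mono fun z hz => ?_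
    by_contra hcon
    exact hz (h5 z hcon).symm
  · ext d
    constructor
    · rintro ⟨A, rfl⟩
      obtain ⟨z, hz⟩ := h2 r A
      exact ⟨specialize z A, hz.symm⟩
    · rintro ⟨B, rfl⟩
      classical
      let φ : G →* TimesZ G r := MonoidHom.inl _ _
      refine ⟨matM (fun s => φ (tel B s)) (trow B) (tcol B) (tco B), ?_⟩
      refine (kerDim_eq (G := TimesZ G r) _).trans ?_
      rw [kerDim_eq B, inj_hom φ (fun x y hxy => (Prod.mk.inj hxy).1), matM_eq]

end Pool.Agent.Results.MP_54e5d7_al.GenericEvaluation
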