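import Pool.Agent.Q91.TE.Mat

set_option autoImplicit false
set_option linter.unusedSectionVars false

universe u

namespace Pool.Agent.Results.MP_54e5d7_al.LargeGirth

open Pool.Agent.Q91.TE

/-- The kernel of right multiplication by the matrix `A` over the complex group ring on row vectors
of length `m` over `ℓ²(G)`: all square-summable `x` with `x A = 0`. -/
def kernel {G : Type u} [Group G] {m l : ℕ} (A : Matrix (Fin m) (Fin l) (G →₀ ℂ)) :
    Set (lp (fun _ : Fin m × G => ℂ) 2) :=
  {x | ∀ (j : Fin l) (g : G),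
    ∑ k : Fin m, ∑ h ∈ (A k j).support, x (k, g * h⁻¹) * A k j h = 0}

open Classical in
/-- The von Neumann dimension of that kernel: the sum over `i` of one minus the square of the
distance from the basis vector at `(i, 1)` to the kernel, that is, the sum of the squared lengths
of the projections of these vectors to the kernel. -/
noncomputable def kerDim {G : Type u} [Group G] {m l : ℕ}
    (A : Matrix (Fin m) (Fin l) (G →₀ ℂ)) : ℝ :=
  ∑ i : Fin m, (1 - Metric.infDist
    (lp.single (E := fun _ : Fin m × G => ℂ) 2 (i, (1 : G)) (1 : ℂ)) (kernel A) ^ 2)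

/-- A term: a row, a column and a group element. -/
abbrev Term (m l : ℕ) (G : Type u) : Type u := Fin m × Fin l × G

/-- The term `t = (i, j, h)` is a term of `A`: the coefficient of `h` in the entry `A i j` is not
zero. -/
def IsTerm {G : Type u} {m l : ℕ} (A : Matrix (Fin m) (Fin l) (G →₀ ℂ)) (t : Term m l G) : Prop :=
  A t.1 t.2.1 t.2.2 ≠ 0

/-- The list `[(t₁, u₁), …, (t_n, u_n)]` is a reduced walk starting in row `i`: all `t_k` and `u_k`
are terms of `A`, `t_k` and `u_k` are different and in the same column, `t₁` is in row `i`,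
`t_(k+1)` is different from `u_k` and in the same row. -/
def Walk {G : Type u} {m l : ℕ} (A : Matrix (Fin m) (Fin l) (G →₀ ℂ)) :
    Fin m → List (Term m l G × Term m l G) → Prop
  | _, [] => True
  | i, p :: w => p.1.1 = i ∧ IsTerm A p.1 ∧ IsTerm A p.2 ∧ p.2.2.1 = p.1.2.1 ∧ p.2 ≠ p.1 ∧
      (∀ q ∈ w.head?, q.1 ≠ p.2) ∧ Walk A p.2.1 w

/-- The row in which a walk ends that starts in row `i`. -/
def endRow {G : Type u} {m l : ℕ} : Fin m → List (Term m l G × Term m l G) → Fin m
  | i, [] => i
  | _, p :: w => endRow p.2.1 w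

/-- The value `t₁ u₁⁻¹ t₂ u₂⁻¹ ⋯` in `G` of the walk `[(t₁, u₁), (t₂, u₂), …]`. -/
def value {G : Type u} [Group G] {m l : ℕ} : List (Term m l G × Term m l G) → G
  | [] => 1
  | p :: w => p.1.2.2 * p.2.2.2⁻¹ * value w

section
variable {G : Type u} [Group G] {m l : ℕ}

/-- forget the proofs -/
def tr {A : Matrix (Fin m) (Fin l) (G →₀ ℂ)} (t : Tm A) : Term m l G := (t.1, t.2.1, t.2.2.1)

theorem tr_inj {A : Matrix (Fin m) (Fin l) (G →₀ ℂ)} : Function.Injective (tr (A := A)) := by
  rintro ⟨i, j, h, hh⟩ ⟨i', j', h', hh'⟩ he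
  simp only [tr, Prod.mk.injEq] at he
  obtain ⟨rfl, rfl, rfl⟩ := he
  rfl

/-- forget the proofs -/
def vl {A : Matrix (Fin m) (Fin l) (G →₀ ℂ)} (w : List (Tm A × Tm A)) :
    List (Term m l G × Term m l G) := w.map fun p => (tr p.1, tr p.2)

theorem vl_inj {A : Matrix (Fin m) (Fin l) (G →₀ ℂ)} : Function.Injective (vl (A := A)) :=
  List.map_injective_iff.2 fun _ _ h => Prod.ext (tr_inj (congrArg Prod.fst h))
    (tr_inj (congrArg Prod.snd h))

open Classical in
theorem red {A : Matrix (Fin m) (Fin l) (G →₀ ℂ)} {j : ℕ} {i : Fin m} {s : Option (Tm A)}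
    {w : List (Tm A × Tm A)} (h : w ∈ Wd (trow A) (tcol A) j s i) :
    Walk A i (vl w) ∧ ∀ p ∈ w.head?, s ≠ some p.1 := by
  induction j generalizing s w i with
  | zero =>
    rw [Wd, Finset.mem_singleton] at h
    subst h
    exact ⟨trivial, by simp⟩
  | succ j ih =>
    simp only [Wd, Finset.mem_biUnion, Finset.mem_image] at h
    obtain ⟨t, ht, v, hv, w', hw', rfl⟩ := h
    obtain ⟨h1, h2⟩ := ih hw'
    have ht' := (Finset.mem_filter.1 ht).2
    have hv' := (Finset.mem_filter.1 hv).2
    refine ⟨⟨ht'.1, tco_ne A t, tco_ne A v, hv'.1, fun h => hv'.2 (tr_inj h), ?_, h1⟩, ?_⟩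
    · intro q hq
      change q ∈ (w'.map _).head? at hq
      rw [List.head?_map, Option.mem_map] at hq
      obtain ⟨q', hq', rfl⟩ := hq
      intro h
      exact h2 q' hq' (congrArg some (tr_inj h).symm)
    · intro p hp
      rw [List.head?_cons, Option.mem_def, Option.some_inj] at hp
      rw [← hp]
      exact ht'.2

theorem nd_eq {A : Matrix (Fin m) (Fin l) (G →₀ ℂ)} (w : List (Tm A × Tm A)) (i : Fin m) (g : G) :
    nd (trow A) (tst A) w (i, g) = (endRow i (vl w), g * value (vl w)) := by
  induction w generalizing g i with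
  | nil => simp [nd, vl, value, endRow]
  | cons p w ih =>
    rw [nd, ih]
    change (endRow (trow A p.2) (vl w), tst A p.1 p.2 g * value (vl w))
      = (endRow (tr p.2).1 (vl w), g * ((tr p.1).2.2 * (tr p.2).2.2⁻¹ * value (vl w)))
    rw [← mul_assoc]
    rfl

theorem kernel_eq (A : Matrix (Fin m) (Fin l) (G →₀ ℂ)) :
    kernel A = (kerV A : Set (lp (fun _ : Fin m × G => ℂ) 2)) := by
  ext x
  exact (mem_kerV A x).symm

theorem geom (ρ : ℝ) (n : ℕ) : (ρ - 1) * ∑ j ∈ Finset.range n, ρ ^ j = ρ ^ n - 1 := by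
  rw [mul_comm, geom_sum_mul]

/-- **Large girth.** Let `G` be any group and `A` an `m × l` matrix over its complex group algebra
with `r ≥ 1` terms in each row and `c ≥ 2` terms in each column, all coefficients of which have the
same absolute value. Suppose that two reduced walks of length at most `n` which start in the same
row, end in the same row and have the same value in `G` are equal. Then the von Neumann dimension
of the kernel of `A` on `ℓ²(G)^m` is in the interval `[m - l, m - l + l ((r - 1) / (c - 1))^n]` if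
`r < c`, in the interval `[0, m / (1 + n r / (r - 1))]` if `r = c`, and in the interval
`[0, m ((c - 1) / (r - 1))^n]` if `r > c`. -/
theorem result (A : Matrix (Fin m) (Fin l) (G →₀ ℂ)) (r c n : ℕ) (hr1 : 1 ≤ r) (hc2 : 2 ≤ c)
    (hr : ∀ i, ∑ j, (A i j).support.card = r) (hc : ∀ j, ∑ i, (A i j).support.card = c)
    (hω : ∀ t u : Term m l G, IsTerm A t → IsTerm A u → ‖A t.1 t.2.1 t.2.2‖ = ‖A u.1 u.2.1 u.2.2‖)
    (hn : ∀ i v w, Walk A i v → Walk A i w → v.length ≤ n → w.length ≤ n →
      endRow i v = endRow i w → value v = value w → v = w) :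
    (r < c → (m : ℝ) - l ≤ kerDim A ∧
      kerDim A ≤ (m : ℝ) - l + l * (((r : ℝ) - 1) / (c - 1)) ^ n) ∧
    (r = c → 0 ≤ kerDim A ∧ kerDim A ≤ m / (1 + n * ((r : ℝ) / (r - 1)))) ∧
    (c < r → 0 ≤ kerDim A ∧ kerDim A ≤ m * (((c : ℝ) - 1) / (r - 1)) ^ n) := by
  classical
  have hlow : (m : ℝ) - l ≤ kerDim A := by
    have := lower A
    unfold kerDim
    rw [kernel_eq]
    exact this
  have hnonneg : 0 ≤ kerDim A := by
    unfold kerDim
    refine Finset.sum_nonneg fun i _ => ?_
    rw [kernel_eq]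
    exact nonneg' (kerV A) (isClosed_kerV A) (i, 1)
  have hc0 : (0 : ℝ) < c - 1 := by
    have : (2 : ℝ) ≤ c := by exact_mod_cast hc2
    linarith
  have hr0 : (0 : ℝ) ≤ r - 1 := by
    have : (1 : ℝ) ≤ r := by exact_mod_cast hr1
    linarith
  set ρ : ℝ := ((r : ℝ) - 1) / (c - 1) with hρ
  have hρ0 : 0 ≤ ρ := div_nonneg hr0 hc0.le
  set E : ℝ := 1 + (r : ℝ) / (c - 1) * ∑ j ∈ Finset.range n, ρ ^ j with hE
  have hE0 : 0 < E := by
    have : 0 ≤ (r : ℝ) / (c - 1) * ∑ j ∈ Finset.range n, ρ ^ j :=
      mul_nonneg (by positivity) (Finset.sum_nonneg fun j _ => pow_nonneg hρ0 j)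
    linarith
  have hmain : kerDim A ≤ m / E := by
    unfold kerDim
    have h1 : ∀ i ∈ (Finset.univ : Finset (Fin m)), 1 - Metric.infDist
        (lp.single (E := fun _ : Fin m × G => ℂ) 2 (i, (1 : G)) (1 : ℂ)) (kernel A) ^ 2 ≤ 1 / E := by
      intro i _
      rw [kernel_eq]
      refine bound' (kerV A) (isClosed_kerV A) (i, 1) E hE0 fun f hf => ?_
      have hEq := eqn A f hf
      have h2 := total (row := trow A) (col := tcol A) (st := tst A) (F := (f : Fin m × G → ℂ))
        n i 1 (summable_sq_lp f) (by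
          intro j hj k hk w hw v hv h
          rw [nd_eq, nd_eq, one_mul, one_mul] at h
          apply vl_inj
          refine hn i _ _ (red hw).1 (red hv).1 ?_ ?_ (congrArg Prod.fst h) (congrArg Prod.snd h)
          · rw [vl, List.length_map, length_of_mem hw]; exact hj
          · rw [vl, List.length_map, length_of_mem hv]; exact hk)
      rw [← norm_sq_lp] at h2
      refine le_trans ?_ h2
      -- the terms of row `i`
      have hcard : 0 < (Finset.univ.filter (fun t : Tm A => trow A t = i)).card := by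
        rw [card_row, hr]; exact hr1
      obtain ⟨t0, _⟩ := Finset.card_pos.1 hcard
      have hω0 : 0 < ‖tco A t0‖ := norm_pos_iff.2 (tco_ne A t0)
      rw [Finset.sum_range_succ', Lv_zero]
      have h4 : ∀ j ∈ Finset.range n, (r : ℝ) / (c - 1) * ρ ^ j * ‖f (i, 1)‖ ^ 2
          ≤ Lv (trow A) (tcol A) (tst A) (f : Fin m × G → ℂ) none i (j + 1) 1 := by
        intro j _
        exact unif_root hEq ‖tco A t0‖ hω0
          (fun t => hω (tr t) (tr t0) (tco_ne A t) (tco_ne A t0)) r c
          (fun s => by rw [card_nx, hr]) (fun t => by rw [card_nb, hc]) hc2 i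
          (by rw [nx_none, card_row, hr]) j 1
      have h6 := Finset.sum_le_sum h4
      rw [← Finset.sum_mul, ← Finset.mul_sum] at h6
      rw [hE, add_mul, one_mul]
      linarith
    refine (Finset.sum_le_sum h1).trans (le_of_eq ?_)
    rw [Finset.sum_const, Finset.card_univ, Fintype.card_fin, nsmul_eq_mul]
    ring
  have hgeom := geom ρ n
  have hm0 : (0 : ℝ) ≤ m := Nat.cast_nonneg m
  refine ⟨fun hrc => ⟨hlow, ?_⟩, fun hrc => ⟨hnonneg, ?_⟩, fun hrc => ⟨hnonneg, ?_⟩⟩
  · -- double counting
    have hcount : (m : ℝ) * r = l * c := by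
      have h1 : ∑ i : Fin m, ∑ j : Fin l, (A i j).support.card
          = ∑ j : Fin l, ∑ i : Fin m, (A i j).support.card := Finset.sum_comm
      rw [Finset.sum_congr rfl fun i _ => hr i, Finset.sum_congr rfl fun j _ => hc j,
        Finset.sum_const, Finset.sum_const, Finset.card_univ, Finset.card_univ, Fintype.card_fin,
        Fintype.card_fin, smul_eq_mul, smul_eq_mul] at h1
      exact_mod_cast h1
    have hrc' : (0 : ℝ) < c - r := by
      have : (r : ℝ) < c := by exact_mod_cast hrc
      linarith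
    have hcpos : (0 : ℝ) < c := by linarith
    set S : ℝ := ∑ j ∈ Finset.range n, ρ ^ j with hS
    have hρ1 : ρ - 1 = -((c - r) / (c - 1)) := by rw [hρ]; field_simp; ring
    have hρn : ρ ^ n = 1 - (c - r) / (c - 1) * S := by rw [hρ1] at hgeom; linarith
    have hρn1 : 0 ≤ ρ ^ n := pow_nonneg hρ0 n
    have hS0 : 0 ≤ S := Finset.sum_nonneg fun j _ => pow_nonneg hρ0 j
    refine hmain.trans ?_
    rw [div_le_iff₀ hE0]
    -- everything in terms of `y = S / (c - 1)`
    set y : ℝ := S / (c - 1) with hy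
    have hSy : S = y * (c - 1) := by rw [hy]; field_simp
    have hy0 : 0 ≤ y := div_nonneg hS0 hc0.le
    have e1 : E = 1 + r * y := by rw [hE, hSy]; field_simp
    have e2 : ρ ^ n = 1 - (c - r) * y := by rw [hρn, hSy]; field_simp
    rw [e1, e2]
    have hl : (l : ℝ) = m * r / c := by rw [eq_div_iff hcpos.ne']; linarith
    rw [hl]
    rw [e2] at hρn1
    have h7 : (m : ℝ) - m * r / c + m * r / c * (1 - (c - r) * y)
        = m / c * (c - r * ((c - r) * y)) := by
      field_simp
      ring
    rw [h7]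
    have h8 : (m : ℝ) / c * (c - r * ((c - r) * y)) * (1 + r * y) - m
        = m / c * (r * r * y) * (1 - (c - r) * y) := by
      field_simp
      ring
    have hrr : (0 : ℝ) ≤ r := Nat.cast_nonneg r
    have h9 : 0 ≤ (m : ℝ) / c * (r * r * y) * (1 - (c - r) * y) := by positivity
    linarith
  · subst hrc
    have h1 : ρ = 1 := by rw [hρ]; exact div_self hc0.ne'
    have h2 : E = 1 + n * ((r : ℝ) / (r - 1)) := by
      rw [hE, h1]
      simp
      ring
    rw [← h2]
    exact hmain
  · have hr2 : (0 : ℝ) < r - 1 := by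
      have : (c : ℝ) < r := by exact_mod_cast hrc
      linarith
    have h1 : ρ ^ n ≤ E := by
      have h2 : ρ ^ n = 1 + (ρ - 1) * ∑ j ∈ Finset.range n, ρ ^ j := by rw [hgeom]; ring
      rw [h2, hE]
      have h3 : ρ - 1 ≤ (r : ℝ) / (c - 1) := by
        rw [hρ, div_sub_one hc0.ne']
        apply div_le_div_of_nonneg_right _ hc0.le
        have : (0 : ℝ) ≤ c := Nat.cast_nonneg c
        linarith
      have h4 : 0 ≤ ∑ j ∈ Finset.range n, ρ ^ j :=
        Finset.sum_nonneg fun j _ => pow_nonneg hρ0 j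
      have := mul_le_mul_of_nonneg_right h3 h4
      linarith
    have hρpos : 0 < ρ := div_pos hr2 hc0
    have h5 : (((c : ℝ) - 1) / (r - 1)) ^ n = 1 / ρ ^ n := by
      rw [hρ, ← one_div_pow, one_div_div]
    rw [h5, mul_one_div]
    refine hmain.trans ?_
    exact div_le_div_of_nonneg_left hm0 (pow_pos hρpos n) h1

end

end Pool.Agent.Results.MP_54e5d7_al.LargeGirth
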